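import Mathlib
import Pool.Agent.Y942.WJ.Stm

/-!
# Part ART of project WH: Artin induction for the trivial character
-/

set_option autoImplicit false

namespace Pool.Agent.Y891.WJ

open Pool.Agent.Y942.WJ
open scoped Classical in
/-- the number of `h` such that `h⁻¹ g h` generates `D` -/
noncomputable def gam {G : Type} [Group G] [Fintype G] (D : Subgroup G) : G → ℤ :=
  fun g => ∑ h : G, if Subgroup.zpowers (h⁻¹ * g * h) = D then 1 else 0

open scoped Classical in
/-- the number of `h` such that `h⁻¹ g h` lies in `D` -/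
noncomputable def kap {G : Type} [Group G] [Fintype G] (D : Subgroup G) : G → ℤ :=
  fun g => ∑ h : G, if h⁻¹ * g * h ∈ D then 1 else 0

/-- the permutation character of `G ⧸ ⟨s⟩` -/
noncomputable def F {G : Type} [Group G] (s : G) : G → ℤ := fun g => (fx s g : ℤ)

open scoped Classical in
theorem kap_eq {G : Type} [Group G] [Fintype G] (D : Subgroup G) :
    kap D = ∑ C ∈ Finset.univ.filter (fun C : Subgroup G => C ≤ D), gam C := by
  funext g
  rw [Finset.sum_apply]
  unfold kap gam
  rw [Finset.sum_comm]
  refine Finset.sum_congr rfl fun h _ => ?_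
  rw [Finset.sum_ite_eq]
  simp only [Finset.mem_filter, Finset.mem_univ, true_and, Subgroup.zpowers_le]

theorem kap_zpowers {G : Type} [Group G] [Fintype G] (s : G) :
    kap (Subgroup.zpowers s) = (Nat.card (Subgroup.zpowers s)) • F s := by
  classical
  funext g
  have h1 := QuotientGroup.card_preimage_mk (Subgroup.zpowers s)
    {x : G ⧸ Subgroup.zpowers s | g • x = x}
  have h2 : ((QuotientGroup.mk : G → G ⧸ Subgroup.zpowers s) ⁻¹'
      {x : G ⧸ Subgroup.zpowers s | g • x = x}) =
      {h : G | h⁻¹ * g * h ∈ Subgroup.zpowers s} := by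
    ext h
    change g • (h : G ⧸ Subgroup.zpowers s) = (h : G ⧸ Subgroup.zpowers s) ↔
      h⁻¹ * g * h ∈ Subgroup.zpowers s
    rw [eq_comm, MulAction.Quotient.smul_coe, QuotientGroup.eq, smul_eq_mul, mul_assoc]
  rw [h2] at h1
  have h3 : kap (Subgroup.zpowers s) g =
      (Nat.card {h : G | h⁻¹ * g * h ∈ Subgroup.zpowers s} : ℤ) := by
    unfold kap
    rw [Finset.sum_boole, Nat.card_eq_fintype_card, Fintype.card_subtype]
    rfl
  rw [h3, h1]
  simp only [F, fx, Pi.smul_apply, nsmul_eq_mul, Nat.cast_mul]
  rfl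

theorem gam_mem {G : Type} [Group G] [Fintype G] (D : Subgroup G) :
    gam D ∈ AddSubgroup.closure (Set.range (F (G := G))) := by
  classical
  induction D using WellFoundedLT.induction with
  | ind D ih =>
    by_cases hD : ∃ s, Subgroup.zpowers s = D
    · obtain ⟨s, rfl⟩ := hD
      have h1 := kap_eq (Subgroup.zpowers s)
      have hm : Subgroup.zpowers s ∈
          Finset.univ.filter (fun C : Subgroup G => C ≤ Subgroup.zpowers s) := by simp
      rw [← Finset.add_sum_erase _ _ hm, kap_zpowers] at h1
      have h2 : gam (Subgroup.zpowers s) = Nat.card (Subgroup.zpowers s) • F s -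
          ∑ C ∈ (Finset.univ.filter (fun C : Subgroup G => C ≤ Subgroup.zpowers s)).erase
            (Subgroup.zpowers s), gam C := by
        rw [h1]; abel
      rw [h2]
      have hF : F s ∈ AddSubgroup.closure (Set.range (F (G := G))) :=
        AddSubgroup.subset_closure (Set.mem_range_self s)
      refine AddSubgroup.sub_mem _ (AddSubgroup.nsmul_mem _ hF _)
        (AddSubgroup.sum_mem _ fun C hC => ih C ?_)
      rw [Finset.mem_erase, Finset.mem_filter] at hC
      exact lt_of_le_of_ne hC.2.2 hC.1
    · have h0 : gam D = 0 := by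
        funext g
        refine Finset.sum_eq_zero fun h _ => ?_
        rw [if_neg]
        exact fun h' => hD ⟨_, h'⟩
      rw [h0]
      exact AddSubgroup.zero_mem _

theorem sum_gam {G : Type} [Group G] [Fintype G] [Fintype (Subgroup G)] :
    ∑ D : Subgroup G, gam D = fun _ => (Nat.card G : ℤ) := by
  classical
  funext g
  rw [Finset.sum_apply]
  unfold gam
  rw [Finset.sum_comm]
  simp [Finset.sum_ite_eq, Nat.card_eq_fintype_card]

theorem lists_of_mem {G : Type} [Group G] (f : G → ℤ)
    (hf : f ∈ AddSubgroup.closure (Set.range (F (G := G)))) : ∃ l m : List G, ∀ g : G,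
      f g + (((l.map (fun s => fx s g)).sum : ℕ) : ℤ) =
        (((m.map (fun s => fx s g)).sum : ℕ) : ℤ) := by
  induction hf using AddSubgroup.closure_induction with
  | mem x hx =>
    obtain ⟨s, rfl⟩ := hx
    refine ⟨[], [s], fun g => ?_⟩
    simp [F]
  | zero => exact ⟨[], [], fun g => by simp⟩
  | add x y _ _ hx hy =>
    obtain ⟨l, m, h1⟩ := hx
    obtain ⟨l', m', h2⟩ := hy
    refine ⟨l ++ l', m ++ m', fun g => ?_⟩
    simp only [List.map_append, List.sum_append, Nat.cast_add, Pi.add_apply]
    rw [← h1 g, ← h2 g]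
    ring
  | neg x _ hx =>
    obtain ⟨l, m, h1⟩ := hx
    refine ⟨m, l, fun g => ?_⟩
    rw [Pi.neg_apply, ← h1 g]
    ring

theorem t_ART : S_ART := by
  intro G _ _
  classical
  have : Fintype G := Fintype.ofFinite G
  have : Fintype (Subgroup G) := Fintype.ofFinite _
  have h1 : (fun _ : G => (Nat.card G : ℤ)) ∈ AddSubgroup.closure (Set.range (F (G := G))) := by
    rw [← sum_gam]
    exact AddSubgroup.sum_mem _ fun D _ => gam_mem D
  obtain ⟨l, m, h2⟩ := lists_of_mem _ h1
  refine ⟨l, m, fun g => ?_⟩
  exact_mod_cast h2 g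

end Pool.Agent.Y891.WJ
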